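import Pool.Agent.X212.Stab.Four

set_option autoImplicit false

/-!
# (3,0)-stable graphs close to n/2 are bounded

`MP_4d8c35_co`, Q1 has the answer no: for every constant `c` the `(3, 0)`-stable graphs `G` with
`α(G) ≥ n / 2 - c` have bounded order.
-/

namespace Pool.Agent.Results.MP_4d8c35_co.OnlyFinitelyMany

open Finset

/-- `G` is `(k, 0)`-stable: deleting any `k` vertices leaves the independence number unchanged. -/
def IsStable {V : Type} (G : SimpleGraph V) (k : ℕ) : Prop :=
  ∀ X : Finset V, X.card = k → (G.induce {v | v ∉ X}).indepNum = G.indepNum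

/-- For every real `c` the orders of the `(3, 0)`-stable graphs `G` with `α(G) ≥ n / 2 - c` are
bounded. -/
theorem result (c : ℝ) : ∃ N : ℕ, ∀ (V : Type) [Fintype V] (G : SimpleGraph V),
    IsStable G 3 → (Fintype.card V : ℝ) / 2 - c ≤ G.indepNum → Fintype.card V ≤ N := by
  classical
  obtain ⟨N, hN⟩ := Pool.Agent.X212.Three.bounded3 ⌈2 * c⌉₊
  refine ⟨max N 3, fun V _ G hG hn => ?_⟩
  by_cases h3 : Fintype.card V ≤ 3
  · exact h3.trans (le_max_right _ _)
  refine (hN V G ?_ ?_).trans (le_max_left _ _)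
  · rw [Pool.Agent.X212.Stab.stable_iff]
    intro Y hY
    obtain ⟨X, hvX, -, hX⟩ := exists_subsuperset_card_eq (s := Y) (t := (univ : Finset V)) (n := 3)
      (subset_univ _) hY (by rw [card_univ]; omega)
    obtain ⟨I, hI, hIX, hc⟩ := (Pool.Agent.X212.Stab.le_induce_iff G X _).1 (hG X hX).ge
    exact ⟨I, hI, fun v h h' => hIX v h (hvX h'), hc⟩
  · have h1 : (Fintype.card V : ℝ) ≤ ((2 * G.indepNum + ⌈2 * c⌉₊ : ℕ) : ℝ) := by
      push_cast
      have h2 := Nat.le_ceil (2 * c)
      linarith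
    exact_mod_cast h1

end Pool.Agent.Results.MP_4d8c35_co.OnlyFinitelyMany
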